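import Pool.Agent.E8helper49.PC.Stm

/-!
# Project PC (MP_02f36d_nt), piece INV (helper9)
-/

set_option autoImplicit false

namespace Pool.Agent.E8helper9.PC

open Pool.Agent.E8helper49.PC

theorem t_INV : S_INV := by
  intro G _ N h2 h3 hm
  have key : ∀ t n : G, t ∉ N → n ∈ N → n * t = t * n → n = 1 := by
    intro t n ht hn hc
    have h1 : t * n ∉ N := fun h => ht (by
      have := N.mul_mem h (N.inv_mem hn)
      simpa using this)
    have e1 := h2 _ h1
    have e2 := h2 _ ht
    have e3 := h3 _ hn
    have e4 : (t * n) * (t * n) = (t * t) * (n * n) := by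
      calc (t * n) * (t * n) = t * (n * t) * n := by group
        _ = t * (t * n) * n := by rw [hc]
        _ = (t * t) * (n * n) := by group
    rw [e1, e2, one_mul] at e4
    rw [← e4, one_mul] at e3
    exact e3
  refine ⟨?_, ?_⟩
  · intro t g ht hc
    have e2 := h2 _ ht
    by_cases hg : g ∈ N
    · exact Or.inl (key t g ht hg hc)
    · right
      have h := key t (g * t) ht (hm g t hg ht) (by rw [← mul_assoc t g t, hc])
      have : g = t⁻¹ := eq_inv_of_mul_eq_one_left h
      rw [this]
      exact inv_eq_of_mul_eq_one_left e2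
  · intro t u ht hu
    have et := h2 _ ht
    have eu := h2 _ hu
    have e3 := h3 _ (hm t u ht hu)
    have it : t⁻¹ = t := inv_eq_of_mul_eq_one_left et
    have iu : u⁻¹ = u := inv_eq_of_mul_eq_one_left eu
    have e5 : t * u * t = u * t * u := by
      have h : (t * u * t) * (u * t * u) = 1 := by
        rw [← e3]; group
      have := eq_inv_of_mul_eq_one_left h
      rw [this, mul_inv_rev, mul_inv_rev, it, iu, mul_assoc]
    rw [mul_inv_rev, it, iu, e5]
    calc u * t * u * (u * t) = u * t * (u * u) * t := by group
      _ = u * (t * t) := by rw [eu]; group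
      _ = u := by rw [et, mul_one]

end Pool.Agent.E8helper9.PC
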